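import Mathlib
import Pool.Agent.X279.JacUnit

/-!
# A centrally essential ring whose Jacobson radical is not centrally essential

The ring is `R = ℤ ⊕ ℤ a ⊕ ℤ b ⊕ (ℤ/2) c` with `ab = c` and all other products of `a, b, c` zero.
Multiplication by the central element `2` kills every commutator, so `R` is centrally essential;
its Jacobson radical is `ℤ a ⊕ ℤ b ⊕ (ℤ/2) c`, whose centre annihilates it.
-/

set_option autoImplicit false

namespace Pool.Agent.Results.MP_0b5955_al.JacobsonNotCE

/-- Central elements of a ring, possibly without identity. -/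
def IsCentral {R : Type} [NonUnitalRing R] (a : R) : Prop := ∀ b : R, a * b = b * a

/-- Centrally essential rings, possibly without identity: commutative rings, and rings in which
every non-central `a` satisfies `a x = y` for some nonzero central elements `x, y`. -/
def CentrallyEssential (R : Type) [NonUnitalRing R] : Prop :=
  (∀ a b : R, a * b = b * a) ∨
    ∀ a : R, ¬ IsCentral a → ∃ x y : R, IsCentral x ∧ IsCentral y ∧ x ≠ 0 ∧ y ≠ 0 ∧ a * x = y

/-- The Jacobson radical of a ring with identity, as a ring (without identity). -/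
def jacobsonRing (R : Type) [Ring R] : NonUnitalSubring R where
  carrier := (Ring.jacobson R : Set R)
  zero_mem' := zero_mem _
  add_mem' := fun ha hb => add_mem ha hb
  neg_mem' := fun ha => neg_mem ha
  mul_mem' := fun {a _} _ hb => Ideal.mul_mem_left _ a hb

/-- The ring `ℤ ⊕ ℤ a ⊕ ℤ b ⊕ (ℤ/2) c`. -/
@[ext] structure RR : Type where
  /-- the integer part -/
  f : ℤ
  /-- the coefficient of `a` -/
  g : ℤ
  /-- the coefficient of `b` -/
  h : ℤ
  /-- the coefficient of `c` -/
  r : ZMod 2

namespace RR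

instance : Zero RR := ⟨⟨0, 0, 0, 0⟩⟩
instance : One RR := ⟨⟨1, 0, 0, 0⟩⟩
instance : Add RR := ⟨fun x y => ⟨x.f + y.f, x.g + y.g, x.h + y.h, x.r + y.r⟩⟩
instance : Neg RR := ⟨fun x => ⟨-x.f, -x.g, -x.h, -x.r⟩⟩
instance : Mul RR := ⟨fun x y => ⟨x.f * y.f, x.f * y.g + x.g * y.f, x.f * y.h + x.h * y.f,
  (x.f : ZMod 2) * y.r + x.r * (y.f : ZMod 2) + (x.g : ZMod 2) * (y.h : ZMod 2)⟩⟩

@[simp] theorem zero_f : (0 : RR).f = 0 := rfl
@[simp] theorem zero_g : (0 : RR).g = 0 := rfl
@[simp] theorem zero_h : (0 : RR).h = 0 := rfl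
@[simp] theorem zero_r : (0 : RR).r = 0 := rfl
@[simp] theorem one_f : (1 : RR).f = 1 := rfl
@[simp] theorem one_g : (1 : RR).g = 0 := rfl
@[simp] theorem one_h : (1 : RR).h = 0 := rfl
@[simp] theorem one_r : (1 : RR).r = 0 := rfl
@[simp] theorem add_f (x y : RR) : (x + y).f = x.f + y.f := rfl
@[simp] theorem add_g (x y : RR) : (x + y).g = x.g + y.g := rfl
@[simp] theorem add_h (x y : RR) : (x + y).h = x.h + y.h := rfl
@[simp] theorem add_r (x y : RR) : (x + y).r = x.r + y.r := rfl
@[simp] theorem neg_f (x : RR) : (-x).f = -x.f := rfl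
@[simp] theorem neg_g (x : RR) : (-x).g = -x.g := rfl
@[simp] theorem neg_h (x : RR) : (-x).h = -x.h := rfl
@[simp] theorem neg_r (x : RR) : (-x).r = -x.r := rfl
@[simp] theorem mul_f (x y : RR) : (x * y).f = x.f * y.f := rfl
@[simp] theorem mul_g (x y : RR) : (x * y).g = x.f * y.g + x.g * y.f := rfl
@[simp] theorem mul_h (x y : RR) : (x * y).h = x.f * y.h + x.h * y.f := rfl
@[simp] theorem mul_r (x y : RR) : (x * y).r =
  (x.f : ZMod 2) * y.r + x.r * (y.f : ZMod 2) + (x.g : ZMod 2) * (y.h : ZMod 2) := rfl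

instance : Ring RR where
  add_assoc x y z := by ext <;> simp [add_assoc]
  zero_add x := by ext <;> simp
  add_zero x := by ext <;> simp
  add_comm x y := by ext <;> simp [add_comm]
  neg_add_cancel x := by
    ext
    · simp
    · simp
    · simp
    · exact neg_add_cancel x.r
  left_distrib x y z := by ext <;> simp <;> ring
  right_distrib x y z := by ext <;> simp <;> ring
  zero_mul x := by ext <;> simp
  mul_zero x := by ext <;> simp
  mul_assoc x y z := by ext <;> simp <;> ring
  one_mul x := by ext <;> simp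
  mul_one x := by ext <;> simp
  nsmul := nsmulRec
  zsmul := zsmulRec

end RR

theorem central_iff (x : RR) : IsCentral x ↔ (x.g : ZMod 2) = 0 ∧ (x.h : ZMod 2) = 0 := by
  constructor
  · intro hx
    have h1 := congrArg RR.r (hx ⟨0, 1, 0, 0⟩)
    have h2 := congrArg RR.r (hx ⟨0, 0, 1, 0⟩)
    simp at h1 h2
    exact ⟨h2, h1.symm⟩
  · rintro ⟨h1, h2⟩ y
    ext
    · simp [mul_comm]
    · simp; ring
    · simp; ring
    · simp [h1, h2]; ring

theorem mem_jacobson_iff (x : RR) : x ∈ Ring.jacobson RR ↔ x.f = 0 := by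
  constructor
  · intro hx
    have h1 : (⟨3, 0, 0, 0⟩ : RR) * x ∈ Ring.jacobson RR := Ideal.mul_mem_left _ _ hx
    obtain ⟨u, hu⟩ := Pool.Agent.X279.isUnit_one_add_of_mem_jacobson h1
    have h2 : (u : RR).f * ((u⁻¹ : RRˣ) : RR).f = 1 := by
      have h := congrArg RR.f u.mul_inv
      exact h
    have h3 : IsUnit (u : RR).f := IsUnit.of_mul_eq_one _ h2
    rw [hu] at h3
    simp at h3
    rcases Int.isUnit_iff.1 h3 with h | h <;> omega
  · intro hx
    rw [← Ideal.jacobson_bot, Ideal.mem_jacobson_iff]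
    intro y
    refine ⟨1 - y * x + (y * x) * (y * x), ?_⟩
    rw [Submodule.mem_bot]
    have hw : ∀ w : RR, w.f = 0 → w * w * w = 0 := by
      intro w hw
      ext <;> simp [hw]
    have h1 := hw (y * x) (by simp [hx])
    calc (1 - y * x + (y * x) * (y * x)) * y * x + (1 - y * x + (y * x) * (y * x)) - 1
        = (y * x) * (y * x) * (y * x) := by noncomm_ring
      _ = 0 := h1

/-- **Negative answer to Q1.** -/
theorem result : ∃ (R : Type) (_ : Ring R),
    CentrallyEssential R ∧ ¬ CentrallyEssential (jacobsonRing R) := by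
  refine ⟨RR, inferInstance, ?_, ?_⟩
  · right
    intro a ha
    have h2 : (2 : ZMod 2) = 0 := rfl
    have hc2 : IsCentral (⟨2, 0, 0, 0⟩ : RR) := by rw [central_iff]; simp
    have hc : IsCentral (a * ⟨2, 0, 0, 0⟩) := by
      rw [central_iff]
      simp [h2]
    refine ⟨⟨2, 0, 0, 0⟩, a * ⟨2, 0, 0, 0⟩, hc2, hc, ?_, ?_, rfl⟩
    · intro h
      have := congrArg RR.f h
      simp at this
    · intro h
      apply ha
      rw [central_iff]
      have hg := congrArg RR.g h
      have hh := congrArg RR.h h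
      simp at hg hh
      simp [hg, hh]
  · have memN : ∀ g h : ℤ, ∀ r : ZMod 2, (⟨0, g, h, r⟩ : RR) ∈ jacobsonRing RR :=
      fun g h r => (mem_jacobson_iff _).2 rfl
    have key : ∀ x : jacobsonRing RR, IsCentral x →
        ((x : RR).g : ZMod 2) = 0 ∧ ((x : RR).h : ZMod 2) = 0 := by
      intro x hx
      have h1 := congrArg (fun z : jacobsonRing RR => (z : RR).r) (hx ⟨_, memN 1 0 0⟩)
      have h2 := congrArg (fun z : jacobsonRing RR => (z : RR).r) (hx ⟨_, memN 0 1 0⟩)
      simp at h1 h2
      exact ⟨h2, h1.symm⟩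
    rintro (hcomm | hess)
    · have h := (key ⟨_, memN 1 0 0⟩ fun b => hcomm _ b).1
      simp at h
    · obtain ⟨x, y, hx, _, _, hy0, hxy⟩ := hess ⟨_, memN 1 0 0⟩ (fun hc => by
        have h := (key _ hc).1
        simp at h)
      apply hy0
      rw [← hxy]
      apply Subtype.ext
      have hxf : (x : RR).f = 0 := (mem_jacobson_iff _).1 x.2
      have hxk := key x hx
      ext
      · simp
      · simp [hxf]
      · simp
      · simp [hxf, hxk.2]

end Pool.Agent.Results.MP_0b5955_al.JacobsonNotCE
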